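import Pool.Agent.H14R3.Aug.Stmts

/-! Project AUG, resolvents. -/

set_option autoImplicit false

open scoped ENNReal InnerProductSpace

namespace Pool.Agent.H531R3.Aug

open Pool.Agent.H14R3.Aug

noncomputable section

variable {Γ : Type} [Group Γ] {I J : Type}

/-- the permutation `(i, g) ↦ (i, g h)` -/
def sh (I : Type) (h : Γ) : I × Γ ≃ I × Γ := (Equiv.refl I).prodCongr (Equiv.mulRight h)

lemma sh_apply (h : Γ) (i : I) (g : Γ) : sh I h (i, g) = (i, g * h) := rfl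

lemma mem_sh (h : Γ) (f : H (I × Γ)) : Memℓp (fun q : I × Γ => f (sh I h q)) 2 := by
  have h1 := lp.memℓp f
  have h2 : 0 < (2 : ℝ≥0∞).toReal := by norm_num
  rw [memℓp_gen_iff h2] at h1 ⊢
  exact (sh I h).summable_iff.2 h1

/-- right translation -/
def Rh (h : Γ) (f : H (I × Γ)) : H (I × Γ) := ⟨fun q => f (sh I h q), mem_sh h f⟩

lemma Rh_apply (h : Γ) (f : H (I × Γ)) (q : I × Γ) : Rh h f q = f (sh I h q) := rfl

lemma Rh_add (h : Γ) (f g : H (I × Γ)) : Rh h (f + g) = Rh h f + Rh h g := by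
  apply lp.ext
  funext q
  rfl

lemma Rh_smul (h : Γ) (c : ℂ) (f : H (I × Γ)) : Rh h (c • f) = c • Rh h f := by
  apply lp.ext
  funext q
  rfl

lemma Rh_inner (h : Γ) (f g : H (I × Γ)) : ⟪Rh h f, g⟫_ℂ = ⟪f, Rh h⁻¹ g⟫_ℂ := by
  rw [lp.inner_eq_tsum, lp.inner_eq_tsum]
  rw [← (sh I h).tsum_eq (fun i => ⟪f i, Rh h⁻¹ g i⟫_ℂ)]
  refine tsum_congr fun q => ?_
  rw [Rh_apply, Rh_apply]
  congr 2
  obtain ⟨i, x⟩ := q
  rw [sh_apply, sh_apply, mul_inv_cancel_right]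

lemma equi_iff (T : H (I × Γ) →L[ℂ] H (J × Γ)) :
    Equivariant T ↔ ∀ (h : Γ) (f : H (I × Γ)), T (Rh h f) = Rh h (T f) := by
  constructor
  · intro hT h f
    apply lp.ext
    funext q
    obtain ⟨j, g⟩ := q
    exact hT h f (Rh h f) (fun i g => rfl) j g
  · intro hT h f f' hf j g
    have h1 : f' = Rh h f := by
      apply lp.ext
      funext q
      exact hf q.1 q.2
    rw [h1, hT]
    rfl

lemma equi_adjoint (T : H (I × Γ) →L[ℂ] H (J × Γ)) (hT : Equivariant T) :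
    Equivariant (ContinuousLinearMap.adjoint T) := by
  rw [equi_iff] at hT ⊢
  intro h f
  apply ext_inner_right ℂ
  intro v
  rw [ContinuousLinearMap.adjoint_inner_left, Rh_inner, ← hT, Rh_inner, ContinuousLinearMap.adjoint_inner_left]

/-- existence of the inverse -/
lemma inv_exists {V : Type} [NormedAddCommGroup V] [InnerProductSpace ℂ V] [CompleteSpace V]
    {W : Type} [NormedAddCommGroup W] [InnerProductSpace ℂ W] [CompleteSpace W]
    (T : V →L[ℂ] W) (Ts : W →L[ℂ] V) (hTs : ∀ u v, ⟪Ts u, v⟫_ℂ = ⟪u, T v⟫_ℂ) (ε : ℝ) (hε : 0 < ε) :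
    ∃ A : V →L[ℂ] V, (∀ v, Ts (T (A v)) + (ε : ℂ) • A v = v) ∧ (∀ v, A (Ts (T v)) + (ε : ℂ) • A v = v) := by
  set P : V →L[ℂ] V := Ts.comp T + (ε : ℂ) • ContinuousLinearMap.id ℂ V with hP
  have hPv : ∀ v, P v = Ts (T v) + (ε : ℂ) • v := fun v => rfl
  have hunit : IsUnit P := by
    refine ContinuousLinearMap.isUnit_of_forall_le_norm_inner_map P (c := ⟨ε, hε.le⟩) hε fun v => ?_
    have h1 : ⟪P v, v⟫_ℂ = ((‖T v‖ ^ 2 + ε * ‖v‖ ^ 2 : ℝ) : ℂ) := by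
      rw [hPv, inner_add_left, hTs, inner_smul_left, inner_self_eq_norm_sq_to_K, inner_self_eq_norm_sq_to_K]
      simp
    rw [h1, Complex.norm_real, Real.norm_eq_abs, abs_of_nonneg (by positivity)]
    show ‖v‖ ^ 2 * ε ≤ _
    nlinarith [sq_nonneg ‖T v‖]
  obtain ⟨u, hu⟩ := hunit
  refine ⟨(↑u⁻¹ : V →L[ℂ] V), fun v => ?_, fun v => ?_⟩
  · rw [← hPv, ← hu]
    have := congrArg (fun f : V →L[ℂ] V => f v) (u.mul_inv)
    exact this
  · have := congrArg (fun f : V →L[ℂ] V => f v) (u.inv_mul)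
    rw [← map_smul, ← map_add, ← hPv, ← hu]
    exact this

lemma equi_inv {T : H (I × Γ) →L[ℂ] H (J × Γ)} {Ts : H (J × Γ) →L[ℂ] H (I × Γ)} (hT : Equivariant T)
    (hTs : Equivariant Ts) (ε : ℝ) (A : H (I × Γ) →L[ℂ] H (I × Γ))
    (h1 : ∀ v, Ts (T (A v)) + (ε : ℂ) • A v = v) (h2 : ∀ v, A (Ts (T v)) + (ε : ℂ) • A v = v) :
    Equivariant A := by
  rw [equi_iff] at hT hTs ⊢
  intro h f
  have e1 : Rh h f = Ts (T (Rh h (A f))) + (ε : ℂ) • Rh h (A f) := by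
    rw [hT, hTs, ← Rh_smul, ← Rh_add, h1]
  conv_lhs => rw [e1]
  rw [map_add, map_smul, h2]

theorem resolv_proof : Resolv := by
  intro Γ _ n k T hT ε hε
  set Ts := ContinuousLinearMap.adjoint T with hTs
  have hadj : ∀ u v, ⟪Ts u, v⟫_ℂ = ⟪u, T v⟫_ℂ := fun u v => ContinuousLinearMap.adjoint_inner_left T v u
  have hadj' : ∀ u v, ⟪T u, v⟫_ℂ = ⟪u, Ts v⟫_ℂ := fun u v => by
    rw [← inner_conj_symm, ← hadj, inner_conj_symm]
  have hTsE : Equivariant Ts := equi_adjoint T hT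
  obtain ⟨A, hA1, hA2⟩ := inv_exists T Ts hadj ε hε
  obtain ⟨B, hB1, hB2⟩ := inv_exists Ts T hadj' ε hε
  exact ⟨Ts, A, B, hadj, hTsE, equi_inv hT hTsE ε A hA1 hA2, equi_inv hTsE hT ε B hB1 hB2,
    hA1, hA2, hB1, hB2⟩

end

end Pool.Agent.H531R3.Aug
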